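import Pool.Agent.H317.GR.StmB

/-! Project GR (helper317): S_LIN (helper675). -/

set_option autoImplicit false

namespace Pool.Agent.H675.GR

open Matrix Pool.Agent.H317.GR

theorem prim {n : ℕ} (a : Fin n → ℤ) (ha : a ≠ 0) :
    ∃ (d : ℤ) (w c : Fin n → ℤ), d ≠ 0 ∧ (∀ i, a i = d * w i) ∧ ∑ i, c i * w i = 1 := by
  obtain ⟨d, hd⟩ : ∃ d, d = Submodule.IsPrincipal.generator (Ideal.span (Set.range a)) := ⟨_, rfl⟩
  have h1 : ∀ i, d ∣ a i := by
    intro i
    rw [hd]
    exact (Submodule.IsPrincipal.mem_iff_generator_dvd _).1 (Ideal.subset_span ⟨i, rfl⟩)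
  have h2 : d ∈ Ideal.span (Set.range a) := by
    rw [hd]
    exact Submodule.IsPrincipal.generator_mem _
  obtain ⟨c, hc⟩ := (Ideal.mem_span_range_iff_exists_fun).1 h2
  choose w hw using h1
  have hd0 : d ≠ 0 := by
    intro h0
    apply ha
    funext i
    rw [hw i, h0, zero_mul]
    rfl
  refine ⟨d, w, c, hd0, hw, ?_⟩
  apply mul_left_cancel₀ hd0
  rw [mul_one]
  conv_rhs => rw [← hc]
  rw [Finset.mul_sum]
  refine Finset.sum_congr rfl fun i _ => ?_
  rw [hw i]
  ring

theorem lin : S_LIN := by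
  intro n u a b ha hb hcomm
  obtain ⟨j, hj⟩ := Function.ne_iff.1 hb
  have hj' : b j ≠ 0 := hj
  obtain ⟨s, hs⟩ : ∃ s, s = ∑ k, b k * u.val k j := ⟨_, rfl⟩
  have key : ∀ i, b j * (∑ k, u.val i k * a k) = s * a i := by
    intro i
    have h := congrFun (congrFun hcomm i) j
    rw [Matrix.mul_apply, Matrix.mul_apply] at h
    simp only [vecMulVec_apply] at h
    rw [hs, Finset.mul_sum, Finset.sum_mul]
    calc ∑ k, b j * (u.val i k * a k) = ∑ k, u.val i k * (a k * b j) :=
          Finset.sum_congr rfl fun k _ => by ring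
      _ = ∑ k, a i * b k * u.val k j := h
      _ = _ := Finset.sum_congr rfl fun k _ => by ring
  obtain ⟨d, w, c, hd, hw, hc⟩ := prim a ha
  have key2 : ∀ i, b j * (∑ k, u.val i k * w k) = s * w i := by
    intro i
    apply mul_left_cancel₀ hd
    calc d * (b j * ∑ k, u.val i k * w k) = b j * ∑ k, u.val i k * a k := by
          rw [mul_left_comm, Finset.mul_sum]
          congr 1
          refine Finset.sum_congr rfl fun k _ => ?_
          rw [hw k]
          ring
      _ = s * a i := key i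
      _ = d * (s * w i) := by rw [hw i]; ring
  obtain ⟨l, hl⟩ : ∃ l, l = ∑ i, c i * ∑ k, u.val i k * w k := ⟨_, rfl⟩
  have hsl : s = b j * l := by
    calc s = s * ∑ i, c i * w i := by rw [hc, mul_one]
      _ = ∑ i, c i * (s * w i) := by
          rw [Finset.mul_sum]
          exact Finset.sum_congr rfl fun i _ => by ring
      _ = ∑ i, c i * (b j * ∑ k, u.val i k * w k) :=
          Finset.sum_congr rfl fun i _ => by rw [key2]
      _ = b j * l := by
          rw [hl, Finset.mul_sum]
          exact Finset.sum_congr rfl fun i _ => by ring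
  have key3 : ∀ i, ∑ k, u.val i k * w k = l * w i := by
    intro i
    apply mul_left_cancel₀ hj'
    rw [key2, hsl]
    ring
  have key4 : u.val *ᵥ w = l • w := by
    funext i
    exact key3 i
  obtain ⟨v, hv⟩ : ∃ v : Matrix (Fin n) (Fin n) ℤ, v * u.val = 1 :=
    ⟨(u⁻¹).val, congrArg Subtype.val (inv_mul_cancel u)⟩
  have key5 : w = l • (v *ᵥ w) := by
    have h1 : v *ᵥ (u.val *ᵥ w) = w := by
      rw [Matrix.mulVec_mulVec, hv, Matrix.one_mulVec]
    rw [key4, Matrix.mulVec_smul] at h1
    exact h1.symm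
  have hunit : IsUnit l := by
    rw [isUnit_iff_dvd_one]
    refine ⟨∑ i, c i * (v *ᵥ w) i, ?_⟩
    rw [← hc, Finset.mul_sum]
    refine Finset.sum_congr rfl fun i _ => ?_
    have h2 := congrFun key5 i
    rw [Pi.smul_apply, smul_eq_mul] at h2
    calc c i * w i = c i * (l * (v *ᵥ w) i) := by rw [← h2]
      _ = _ := by ring
  have ha2 : a = d • w := by
    funext i
    exact hw i
  have hua : u.val *ᵥ a = l • a := by
    rw [ha2, Matrix.mulVec_smul, key4, smul_comm]
  rcases Int.isUnit_iff.1 hunit with h | h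
  · left
    rw [hua, h, one_smul]
  · right
    rw [hua, h, neg_smul, one_smul]

end Pool.Agent.H675.GR
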